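import Pool.Agent.Helper70.RC.Goals

/-!
# Project TW (MP_c7dfba_nt), packet ECA
-/

namespace Pool.Agent.Helper30.RC

open Polynomial Pool.Agent.Helper70.RC

universe u v

theorem homog {R : Type v} {M : Type u} [Field R] [Field M] [Algebra R M] (t η : M) (a b : R)
    (n : ℕ) (y : Fin n → M) (z : Fin n → R) (g : R[X]) (h : Fin n → R[X][X])
    (hM : ∀ j, aevalAeval t η (h j) = y j * aeval t g)
    (hR : ∀ j, evalEval a b (h j) = z j * g.eval a) (P : MvPolynomial (Fin (n + 1)) R) :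
    ∃ (N : ℕ) (Q : R[X][X]),
      aevalAeval t η Q =
        (aeval t g) ^ N * MvPolynomial.aeval (Fin.cons t y : Fin (n + 1) → M) P ∧
      evalEval a b Q =
        (g.eval a) ^ N * MvPolynomial.eval (Fin.cons a z : Fin (n + 1) → R) P := by
  induction P using MvPolynomial.induction_on with
  | C r =>
    refine ⟨0, C (C r), ?_, ?_⟩
    · rw [aevalAeval_C, aeval_C, pow_zero, one_mul, MvPolynomial.aeval_C]
    · rw [evalEval_C, eval_C, pow_zero, one_mul, MvPolynomial.eval_C]
  | add p q hp hq =>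
    obtain ⟨N1, Q1, h1, h1'⟩ := hp
    obtain ⟨N2, Q2, h2, h2'⟩ := hq
    refine ⟨N1 + N2, C (g ^ N2) * Q1 + C (g ^ N1) * Q2, ?_, ?_⟩
    · rw [map_add, map_mul, map_mul, h1, h2, aevalAeval_C, aevalAeval_C, map_pow, map_pow, map_add]
      ring
    · rw [evalEval_add, evalEval_mul, evalEval_mul, h1', h2', evalEval_C, evalEval_C, eval_pow,
        eval_pow, map_add]
      ring
  | mul_X p i hp =>
    obtain ⟨N, Q, h1, h1'⟩ := hp
    refine Fin.cases ?_ (fun j => ?_) i
    · refine ⟨N, Q * C X, ?_, ?_⟩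
      · rw [map_mul, h1, aevalAeval_C, aeval_X, map_mul, MvPolynomial.aeval_X, Fin.cons_zero]
        ring
      · rw [evalEval_mul, h1', evalEval_C, eval_X, map_mul, MvPolynomial.eval_X, Fin.cons_zero]
        ring
    · refine ⟨N + 1, Q * h j, ?_, ?_⟩
      · rw [map_mul, h1, hM, map_mul, MvPolynomial.aeval_X, Fin.cons_succ]
        ring
      · rw [evalEval_mul, h1', hR, map_mul, MvPolynomial.eval_X, Fin.cons_succ]
        ring

/-- Packet ECA. -/
theorem eca : LEMS.{u, v} → PRIM.{u, v} → ECA.{u, v} := by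
  intro hL hP R M _ _ _ _ _ t ht n y hy
  have : CharZero R := charZero R
  obtain ⟨η, f, p, w, c, g, h, hf, hc, hg, hpw, hη, hh, hker⟩ := hP R M t ht n y hy
  obtain ⟨a, b, hga, hab⟩ := hL R M t η ht f p w c g hf hc hg hpw hη
  refine ⟨a, fun j => evalEval a b (h j) / g.eval a, fun P hPz => ?_⟩
  obtain ⟨N, Q, h1, h2⟩ := homog t η a b n y (fun j => evalEval a b (h j) / g.eval a) g h hh
    (fun j => by rw [div_mul_cancel₀ _ hga]) P
  rw [hPz, mul_zero] at h1
  obtain ⟨Q', rfl⟩ := hker Q h1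
  rw [evalEval_mul, hab, zero_mul] at h2
  rcases mul_eq_zero.mp h2.symm with h3 | h3
  · exact absurd h3 (pow_ne_zero _ hga)
  · exact h3

end Pool.Agent.Helper30.RC
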